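import Pool.Agent.U541.RF.Quasi

/-!
# Random flats without atoms, or a subgroup near a flat

Let `G` act geometrically on a proper metric space `X`, for instance a proper CAT(0) space, and suppose that
`X` has an `n`-flat. Then some orbit of a subgroup `H` of `G` is at finite Hausdorff distance from an
`n`-flat, or there is a random `n`-flat without atoms: a measure on the space of all subsets `A` of `G`
which is invariant under left translations, gives mass one to the sets which contain a given element,
gives mass zero to every single set, and such that for almost all `A` the set `A o` is at bounded Hausdorff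
distance from an `n`-flat.

Proof. The existence of a random flat is proved by boxes with small boundary in a flat. If `A` is an atom,
then for `a ∈ A` the sets `a⁻¹ A` are atoms of the same mass which contain `1`, so only finitely many are
different, and `A` is a finite union of cosets `H t`.
-/

set_option autoImplicit false

namespace Pool.Agent.Results.MP_5e292f_al.AtomlessRandomFlats

open Set MeasureTheory

/-- Euclidean space of dimension `n`. -/
abbrev E (n : ℕ) : Type := EuclideanSpace ℝ (Fin n)

/-- The set `A` is at Hausdorff distance at most `r` from the image of `f`. -/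
def Within {X : Type*} [MetricSpace X] {n : ℕ} (r : ℝ) (f : E n → X) (A : Set X) : Prop :=
  (∀ x ∈ A, ∃ z, dist x (f z) ≤ r) ∧ ∀ z, ∃ x ∈ A, dist x (f z) ≤ r

/-- A random flat of dimension `n`: a measure on the space `G → Bool` of all subsets of `G`, with the
product σ-algebra, which is invariant under left translations, gives mass `1` to the set of all `A`
which contain `x`, for every `x`, and such that for some `r` and almost all `A` the set
`{a • o | a ∈ A}` is at Hausdorff distance at most `r` from a flat of dimension `n`. -/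
structure IsRandomFlat {G X : Type*} [MetricSpace X] [Group G] [MulAction G X] (o : X) (n : ℕ)
    (μ : Measure (G → Bool)) : Prop where
  invariant : ∀ g : G, μ.map (fun A x => A (g⁻¹ * x)) = μ
  intensity : ∀ x : G, μ {A | A x = true} = 1
  flat : ∃ r : ℝ, ∀ᵐ A ∂μ, ∃ h : E n → X, Isometry h ∧
    Within r h {x | ∃ a : G, A a = true ∧ a • o = x}

/-- Let `G` act geometrically (by isometries, properly discontinuously, cocompactly) on a proper metric
space `X` with an `n`-flat and let `o` be a point of `X`. Then there is a random flat of dimension `n`,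
and for every atom `A` of any random flat of dimension `n` the set `A` is a finite union of right cosets
`H t` of a subgroup `H` for which `H o` is at finite Hausdorff distance from an `n`-flat. So the orbit
`H o` of some subgroup `H` is at finite Hausdorff distance from an `n`-flat, or there is a random flat of
dimension `n` without atoms. -/
theorem result {X : Type*} [MetricSpace X] [ProperSpace X] {G : Type*} [Group G] [MulAction G X]
    [IsIsometricSMul G X] [ProperlyDiscontinuousSMul G X]
    (hcc : ∃ K : Set X, IsCompact K ∧ ∀ x : X, ∃ g : G, g • x ∈ K) (o : X) (n : ℕ)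
    (f : E n → X) (hf : Isometry f) :
    (∃ μ : Measure (G → Bool), IsRandomFlat o n μ) ∧
    (∀ μ : Measure (G → Bool), IsRandomFlat o n μ → ∀ A : G → Bool, μ {A} ≠ 0 →
      ∃ (H : Subgroup G) (T : Finset G) (f' : E n → X) (r : ℝ),
        {x | A x = true} = {x | ∃ h ∈ H, ∃ t ∈ T, x = h * t} ∧
        Isometry f' ∧ Within r f' {x | ∃ h ∈ H, h • o = x}) ∧
    ((∃ (H : Subgroup G) (f' : E n → X) (r : ℝ),
        Isometry f' ∧ Within r f' {x | ∃ h ∈ H, h • o = x}) ∨
      ∃ μ : Measure (G → Bool), IsRandomFlat o n μ ∧ ∀ A : G → Bool, μ {A} = 0) := by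
  have : Countable G := Pool.Agent.U541.RF.countable_of o
  have h1 : ∃ μ : Measure (G → Bool), IsRandomFlat o n μ := by
    obtain ⟨μ, r, hi, h0, hr⟩ := Pool.Agent.U541.RF.direct hcc o hf
    refine ⟨μ, hi, h0, r, ?_⟩
    filter_upwards [hr] with A hA
    obtain ⟨h, hh, hc1, hc2⟩ := hA
    refine ⟨h, hh, fun x hx => ?_, fun z => hc2 (h z) ⟨z, rfl⟩⟩
    obtain ⟨_, ⟨z, rfl⟩, hz⟩ := hc1 x hx
    exact ⟨z, hz⟩
  have h2 : ∀ μ : Measure (G → Bool), IsRandomFlat o n μ → ∀ A : G → Bool, μ {A} ≠ 0 →
      ∃ (H : Subgroup G) (T : Finset G) (f' : E n → X) (r : ℝ),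
        {x | A x = true} = {x | ∃ h ∈ H, ∃ t ∈ T, x = h * t} ∧
        Isometry f' ∧ Within r f' {x | ∃ h ∈ H, h • o = x} := by
    intro μ hμ A hA
    obtain ⟨H, T, hHT⟩ := Pool.Agent.U541.RF.atom_cosets μ hμ.invariant hμ.intensity A hA
    obtain ⟨r, hr⟩ := hμ.flat
    have h3 : ∃ h : E n → X, Isometry h ∧ Within r h {x | ∃ a : G, A a = true ∧ a • o = x} := by
      by_contra hn
      refine hA (measure_mono_null ?_ (ae_iff.1 hr))
      rintro _ rfl
      exact hn
    obtain ⟨f', hf', hw1, hw2⟩ := h3
    set R : ℝ := ∑ t ∈ T, dist (t • o) o with hR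
    have hRt : ∀ t ∈ T, dist (t • o) o ≤ R := fun t ht =>
      Finset.single_le_sum (f := fun t => dist (t • o) o) (fun _ _ => dist_nonneg) ht
    have hA' : ∀ x : G, A x = true ↔ ∃ h ∈ H, ∃ t ∈ T, x = h * t := fun x =>
      Set.ext_iff.1 hHT x
    refine ⟨H, T, f', r + R, hHT, hf', ?_, ?_⟩
    · rintro _ ⟨h, hh, rfl⟩
      obtain ⟨_, ⟨a, ha, rfl⟩, -⟩ := hw2 0
      obtain ⟨h0, -, t, ht, -⟩ := (hA' a).1 ha
      obtain ⟨z, hz⟩ := hw1 ((h * t) • o) ⟨h * t, (hA' _).2 ⟨h, hh, t, ht, rfl⟩, rfl⟩
      refine ⟨z, ?_⟩
      have h4 : dist (h • o) ((h * t) • o) ≤ R := by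
        rw [mul_smul, dist_smul, dist_comm]
        exact hRt t ht
      have h5 := dist_triangle (h • o) ((h * t) • o) (f' z)
      linarith
    · intro z
      obtain ⟨_, ⟨a, ha, rfl⟩, hz⟩ := hw2 z
      obtain ⟨h, hh, t, ht, rfl⟩ := (hA' a).1 ha
      refine ⟨h • o, ⟨h, hh, rfl⟩, ?_⟩
      have h4 : dist (h • o) ((h * t) • o) ≤ R := by
        rw [mul_smul, dist_smul, dist_comm]
        exact hRt t ht
      have h5 := dist_triangle (h • o) ((h * t) • o) (f' z)
      linarith
  refine ⟨h1, h2, ?_⟩
  obtain ⟨μ, hμ⟩ := h1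
  by_cases h : ∃ A : G → Bool, μ {A} ≠ 0
  · obtain ⟨A, hA⟩ := h
    obtain ⟨H, T, f', r, -, h3, h4⟩ := h2 μ hμ A hA
    exact Or.inl ⟨H, f', r, h3, h4⟩
  · push Not at h
    exact Or.inr ⟨μ, hμ, h⟩

end Pool.Agent.Results.MP_5e292f_al.AtomlessRandomFlats
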